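import Pool.Agent.H834Q.NearL

/-! Nearly axially symmetric Jordan curves, ends of the path at the points farthest from the
axis. -/

set_option autoImplicit false
open Complex Set Topology Metric
open scoped ComplexConjugate

namespace Pool.Agent.V11208.NA

open Pool.Agent.H763R2 Pool.Agent.H763R2.An Pool.Agent.H834Q
open Pool.Agent.H763R2.Sq (Dv Cv)
open Pool.Agent.H763R2.Dm (NoSq)

variable {c : ℝ → ℂ}

theorem mgc_botY (L : Loop c) {Y : ℝ} (h : ∀ t, -Y ≤ (c t).im) {z : ℂ} (hz : z.im ≤ -Y) :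
    mgc c z ≤ 0 := by
  refine le_of_forall_pos_le_add fun ε hε => ?_
  have h1 := mgc_out (L.half (z := z - ε * I) (a := I) (by simp) (fun t => by
    have : (c t - (z - ε * I)) / I = -(I * (c t - (z - ε * I))) := by rw [div_I]; ring
    rw [this]
    have := h t
    simp
    linarith)).2
  have h2 := (abs_le.1 ((mgc_sg L).lip z (z - ε * I))).2
  have h3 : ‖z - (z - ε * I)‖ = ε := by
    rw [show z - (z - ε * I) = ε * I by ring, norm_mul, norm_I, norm_real,
      Real.norm_of_nonneg hε.le, mul_one]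
  linarith

/-- the signed distance in a strip -/
theorem mgc_strip (L : Loop c) {Y : ℝ} (h : ∀ t, |(c t).im| ≤ Y) {κ : ℝ} (hκ : 0 ≤ κ) {z : ℂ}
    (hz : Y - κ ≤ |z.im|) : mgc c z ≤ κ := by
  rcases le_total 0 z.im with hs | hs
  · rw [abs_of_nonneg hs] at hz
    have h1 := mgc_topY L (Y := Y) (fun t => (abs_le.1 (h t)).2) (z := z + (κ : ℂ) * I)
      (by simp; linarith)
    have h2 := (abs_le.1 ((mgc_sg L).lip z (z + (κ : ℂ) * I))).2
    have h3 : ‖z - (z + (κ : ℂ) * I)‖ = κ := by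
      rw [show z - (z + (κ : ℂ) * I) = -((κ : ℂ) * I) by ring, norm_neg, norm_mul, norm_I,
        norm_real, Real.norm_of_nonneg hκ, mul_one]
    linarith
  · rw [abs_of_nonpos hs] at hz
    have h1 := mgc_botY L (Y := Y) (fun t => (abs_le.1 (h t)).1) (z := z - (κ : ℂ) * I)
      (by simp; linarith)
    have h2 := (abs_le.1 ((mgc_sg L).lip z (z - (κ : ℂ) * I))).2
    have h3 : ‖z - (z - (κ : ℂ) * I)‖ = κ := by
      rw [show z - (z - (κ : ℂ) * I) = (κ : ℂ) * I by ring, norm_mul, norm_I,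
        norm_real, Real.norm_of_nonneg hκ, mul_one]
    linarith

theorem im_add_re_le (δ : ℂ) : |δ.im + δ.re| ≤ √2 * ‖δ‖ := by
  rw [Complex.norm_def, Complex.normSq_apply, ← Real.sqrt_mul (by norm_num)]
  apply Real.abs_le_sqrt
  nlinarith [sq_nonneg (δ.im - δ.re)]

theorem im_sub_re_le (δ : ℂ) : |δ.im - δ.re| ≤ √2 * ‖δ‖ := by
  rw [Complex.norm_def, Complex.normSq_apply, ← Real.sqrt_mul (by norm_num)]
  apply Real.abs_le_sqrt
  nlinarith [sq_nonneg (δ.im + δ.re)]

/-- the two other vertices of the square on a chord between two nearly symmetric points, the first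
one at maximal distance from the axis -/
theorem ends_im {A B : ℂ} {Y η : ℝ} (hA : |A.im| = Y) (hB : ‖B - conj A‖ ≤ η) :
    Y - √2 * η ≤ |(Dv A B).im| ∧ Y - √2 * η ≤ |(Cv A B).im| := by
  obtain ⟨δ, hδ⟩ : ∃ δ : ℂ, δ = B - conj A := ⟨_, rfl⟩
  have hBe : B = conj A + δ := by rw [hδ]; ring
  rw [← hδ] at hB
  have hη : 0 ≤ η := (norm_nonneg _).trans hB
  have h2 : (1:ℝ) ≤ √2 := by
    rw [show (1:ℝ) = √1 by simp]; exact Real.sqrt_le_sqrt (by norm_num)
  have hre : |δ.re| ≤ η := (abs_re_le_norm δ).trans hB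
  have h3 := (im_add_re_le δ).trans (mul_le_mul_of_nonneg_left hB (Real.sqrt_nonneg 2))
  have eD : (Dv A B).im = A.im + δ.re := by
    rw [hBe]; unfold Dv; simp
  have eC : (Cv A B).im = -A.im + (δ.im + δ.re) := by
    rw [hBe]; unfold Cv; simp; ring
  constructor
  · rw [eD]
    have := abs_sub_abs_le_abs_sub A.im (-δ.re)
    rw [abs_neg, sub_neg_eq_add, hA] at this
    nlinarith
  · rw [eC]
    have := abs_sub_abs_le_abs_sub (-A.im) (-(δ.im + δ.re))
    rw [abs_neg, abs_neg, sub_neg_eq_add, hA] at this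
    linarith

/-- the same with the second point at maximal distance from the axis -/
theorem ends_im' {A B : ℂ} {Y η : ℝ} (hB : |B.im| = Y) (hA : ‖A - conj B‖ ≤ η) :
    Y - √2 * η ≤ |(Dv A B).im| ∧ Y - √2 * η ≤ |(Cv A B).im| := by
  obtain ⟨δ, hδ⟩ : ∃ δ : ℂ, δ = A - conj B := ⟨_, rfl⟩
  have hAe : A = conj B + δ := by rw [hδ]; ring
  rw [← hδ] at hA
  have hη : 0 ≤ η := (norm_nonneg _).trans hA
  have h2 : (1:ℝ) ≤ √2 := by
    rw [show (1:ℝ) = √1 by simp]; exact Real.sqrt_le_sqrt (by norm_num)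
  have hre : |δ.re| ≤ η := (abs_re_le_norm δ).trans hA
  have h3 := (im_sub_re_le δ).trans (mul_le_mul_of_nonneg_left hA (Real.sqrt_nonneg 2))
  have eD : (Dv A B).im = -B.im + (δ.im - δ.re) := by
    rw [hAe]; unfold Dv; simp; ring
  have eC : (Cv A B).im = B.im - δ.re := by
    rw [hAe]; unfold Cv; simp; ring
  constructor
  · rw [eD]
    have := abs_sub_abs_le_abs_sub (-B.im) (-(δ.im - δ.re))
    rw [abs_neg, abs_neg, sub_neg_eq_add, hB] at this
    linarith
  · rw [eC]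
    have := abs_sub_abs_le_abs_sub B.im δ.re
    rw [hB] at this
    nlinarith

/-- at the end chords both vertices are outside -/
theorem end_neg (L : Loop c) {η : ℝ} (hs : ∀ t, ‖c (-t) - conj (c t)‖ ≤ η) {u w : ℝ} (n : ℤ)
    (huw : u + w = n)
    (hm : (∀ t, |(c t).im| ≤ |(c u).im|) ∨ (∀ t, |(c t).im| ≤ |(c w).im|))
    (hfar : (2 + √2) * η < max (infDist (Dv (c u) (c w)) (range c))
      (infDist (Cv (c u) (c w)) (range c))) :
    mgc c (Dv (c u) (c w)) < 0 ∧ mgc c (Cv (c u) (c w)) < 0 := by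
  have hη : 0 ≤ η := (norm_nonneg _).trans (hs 0)
  have hw : c w = c (-u) := by
    rw [show w = -u + (n : ℝ) by linarith]; exact L.per_int _ _
  have hu : c u = c (-w) := by
    rw [show u = -w + (n : ℝ) by linarith]; exact L.per_int _ _
  have s1 : ‖c w - conj (c u)‖ ≤ η := by rw [hw]; exact hs u
  have s2 : ‖c u - conj (c w)‖ ≤ η := by
    have := hs w
    rwa [← hu] at this
  have hκ : 0 ≤ √2 * η := by positivity
  have hb : mgc c (Dv (c u) (c w)) ≤ √2 * η ∧ mgc c (Cv (c u) (c w)) ≤ √2 * η := by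
    rcases hm with hm | hm
    · obtain ⟨e1, e2⟩ := ends_im (A := c u) (B := c w) rfl s1
      exact ⟨mgc_strip L hm hκ e1, mgc_strip L hm hκ e2⟩
    · obtain ⟨e1, e2⟩ := ends_im' (A := c u) (B := c w) rfl s2
      exact ⟨mgc_strip L hm hκ e1, mgc_strip L hm hκ e2⟩
  -- the two signed distances are close
  have hcl : |mgc c (Dv (c u) (c w)) - mgc c (Cv (c u) (c w))| ≤ (2 + √2) * η := by
    obtain ⟨v1, -⟩ := vertL (A := c u) (B := c w) (A' := c u) (B' := c w) s2 s1
    have w1 := (mgc_sg L).lip (Dv (c u) (c w)) (conj (Cv (c u) (c w)))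
    have r1 := mgc_symL L hs (Cv (c u) (c w))
    have := abs_sub_le (mgc c (Dv (c u) (c w))) (mgc c (conj (Cv (c u) (c w))))
      (mgc c (Cv (c u) (c w)))
    linarith
  rw [← mgc_abs, ← mgc_abs] at hfar
  have hcl' := abs_le.1 hcl
  rcases lt_max_iff.1 hfar with h | h
  · rcases lt_abs.1 h with h | h
    · exfalso; linarith [hb.1]
    · constructor <;> nlinarith [hcl'.1, hcl'.2]
  · rcases lt_abs.1 h with h | h
    · exfalso; linarith [hb.2]
    · constructor <;> nlinarith [hcl'.1, hcl'.2]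

/-- the main theorem, the axis being the real line -/
theorem main (L : Loop c) (J : Inj c) {η : ℝ}
    (hs : ∀ t, ‖c (-t) - conj (c t)‖ ≤ η) {x y : ℝ → ℝ}
    (hx : ContinuousOn x (Icc 0 1)) (hy : ContinuousOn y (Icc 0 1))
    (hxy : ∀ s ∈ Icc (0:ℝ) 1, x s < y s ∧ y s < x s + 1)
    (e0 : x 0 + y 0 = 0) (e1 : x 1 + y 1 = 1)
    (m0 : (∀ t, |(c t).im| ≤ |(c (x 0)).im|) ∨ (∀ t, |(c t).im| ≤ |(c (y 0)).im|))
    (m1 : (∀ t, |(c t).im| ≤ |(c (x 1)).im|) ∨ (∀ t, |(c t).im| ≤ |(c (y 1)).im|))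
    (hfar : ∀ s ∈ Icc (0:ℝ) 1, (2 + √2) * η <
      max (infDist (Dv (c (x s)) (c (y s))) (range c))
        (infDist (Cv (c (x s)) (c (y s))) (range c))) :
    ¬ NoSq (range c) :=
  coreL L J hs hx hy hxy e0 e1 hfar
    (end_neg L hs 0 (by rw [e0]; simp) m0 (hfar 0 (by norm_num)))
    (end_neg L hs 1 (by rw [e1]; simp) m1 (hfar 1 (by norm_num)))

end Pool.Agent.V11208.NA
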